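import Pool.Agent.X264.WS.Main

/-!
# Base change to an everywhere unramified representation
-/

set_option autoImplicit false

open Matrix
open scoped commutatorElement

namespace Pool.Agent.X264.WS

variable {p : ℕ} [Fact p.Prime] {k : Type} [Field k] [Algebra (ZMod p) k]

theorem cont_res {F F' : Fld} (h : F'.G ≤ F.G) {ρ : Rp k F} (hc : Cont ρ) : Cont (res h ρ) := by
  have : (((res h ρ).ker.map F'.G.subtype : Subgroup Γ) : Set Γ) =
      ((ρ.ker.map F.G.subtype : Subgroup Γ) : Set Γ) ∩ (F'.G : Set Γ) := by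
    ext g
    constructor
    · rintro ⟨x, hx, rfl⟩
      exact ⟨⟨⟨x.1, h x.2⟩, hx, rfl⟩, x.2⟩
    · rintro ⟨⟨x, hx, rfl⟩, hg⟩
      exact ⟨⟨x.1, hg⟩, hx, rfl⟩
  unfold Cont
  rw [this]
  exact IsOpen.inter hc F'.isOpen

/-- Solvable totally real base change: `ρ̄` becomes everywhere unramified, trivial above `S₀`, with
determinant `ε⁻¹`, over a field containing `L₀` and the field of `E`. -/
theorem exists_field {ε : Γ →* (ZMod p)ˣ} (hε : IsCyclotomic ε)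
    (hram : Forms.HasRamification k) (hcf : Forms.HasClassFields k ε) {L₀ : Fld}
    (hL : SolvableOverQ L₀) (S₀ : Finset ℕ) {E : Subgroup Γ} (hEo : IsOpen (E : Set Γ))
    (hEn : E.Normal) (hEc : ds ⊤ 1 ≤ E) (hEr : ∀ c, IsConj c → c ∈ E) {F : Fld} {ρb : Rp k F}
    (hc : Cont ρb) (ho : TotallyOdd ρb) :
    ∃ (F' : Fld) (h : Step F F'), F'.G ≤ L₀.G ∧ F'.G ≤ E ∧ Unramified (res h.1 ρb) ∧
      (∀ ℓ ∈ S₀, ℓ.Prime → TrivialAbove (res h.1 ρb) ℓ) ∧ HasDet ε (res h.1 ρb) := by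
  classical
  obtain ⟨S, hS⟩ := hram F ρb hc
  obtain ⟨F1, hst, h1⟩ := hcf F ρb hc (S ∪ S₀)
  obtain ⟨hle, hnorm, n1, hn1⟩ := hst
  obtain ⟨hLn, n2, hn2⟩ := hL
  let Kψ : Subgroup Γ := (psi ε ρb).ker.map F.G.subtype
  have hKopen : IsOpen ((Kψ : Subgroup Γ) : Set Γ) := by
    refine Subgroup.isOpen_mono (H₁ := (ρb.ker.map F.G.subtype) ⊓ ε.ker) ?_ ?_
    · rintro g ⟨⟨x, hx, rfl⟩, hg2⟩
      refine ⟨x, ?_, rfl⟩
      have hx' : ρb x = 1 := hx
      have hg3 : ε (x : Γ) = 1 := hg2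
      show psi ε ρb x = 1
      apply psi_one
      rw [hg3, Units.val_one, map_one, mul_one]
      show (ρb x).1.det = 1
      rw [hx', Units.val_one, Matrix.det_one]
    · exact IsOpen.inter hc (cyc_open hε)
  let F' : Fld :=
    { G := F1.G ⊓ L₀.G ⊓ Kψ ⊓ E
      isOpen := ((F1.isOpen.inter L₀.isOpen).inter hKopen).inter hEo
      real := fun c hcc => by
        refine ⟨⟨⟨F1.real c hcc, L₀.real c hcc⟩, ⟨⟨c, F.real c hcc⟩, ?_, rfl⟩⟩, hEr c hcc⟩
        show psi ε ρb ⟨c, F.real c hcc⟩ = 1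
        apply psi_one
        rw [ho c hcc]
        show (-1 : k) * algebraMap (ZMod p) k (ε c) = 1
        rw [cyc_conj hε hcc, Units.val_neg, Units.val_one, map_neg, map_one]
        ring }
  have hF1 : F'.G ≤ F1.G := fun g hg => hg.1.1.1
  have hF'L : F'.G ≤ L₀.G := fun g hg => hg.1.1.2
  have hF'E : F'.G ≤ E := fun g hg => hg.2
  have hF' : F'.G ≤ F.G := hF1.trans hle
  have hF'n : (F'.G.subgroupOf F.G).Normal := by
    refine ⟨fun n hn g => ?_⟩
    have hn' : (n : Γ) ∈ F'.G := hn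
    refine ⟨⟨⟨?_, ?_⟩, ?_⟩, ?_⟩
    · exact hnorm.conj_mem n hn'.1.1.1 g
    · exact hLn.conj_mem n hn'.1.1.2 g
    · obtain ⟨x, hx, hxn⟩ := hn'.1.2
      refine ⟨g * x * g⁻¹, (inferInstance : (psi ε ρb).ker.Normal).conj_mem x hx g, ?_⟩
      show (g : Γ) * (x : Γ) * (g : Γ)⁻¹ = _
      have : (x : Γ) = n := hxn
      rw [this]
      rfl
    · exact hEn.conj_mem n hn'.2 g
  have hds : ds F.G (max (max n1 n2) 1) ≤ F'.G := by
    refine le_inf (le_inf (le_inf ?_ ?_) ?_) ?_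
    · exact (ds_anti F.G ((le_max_left n1 n2).trans (le_max_left _ 1))).trans hn1
    · exact ((ds_anti F.G ((le_max_right n1 n2).trans (le_max_left _ 1))).trans
        (ds_mono le_top n2)).trans hn2
    · refine (ds_anti F.G (le_max_right _ 1)).trans ?_
      show ⁅F.G, F.G⁆ ≤ Kψ
      rw [Subgroup.commutator_le]
      intro a ha b hb
      refine ⟨⁅(⟨a, ha⟩ : F.G), (⟨b, hb⟩ : F.G)⁆, ?_, rfl⟩
      show psi ε ρb _ = 1
      rw [map_commutatorElement, commutatorElement_eq_one_iff_mul_comm]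
      exact mul_comm _ _
    · exact ((ds_anti F.G (le_max_right _ 1)).trans (ds_mono le_top 1)).trans hEc
  refine ⟨F', ⟨hF', hF'n, _, hds⟩, hF'L, hF'E, ?_, ?_, ?_⟩
  · intro ℓ hℓ A hA g hg hgI
    by_cases hm : ℓ ∈ S ∪ S₀
    · exact (h1 ℓ hm hℓ A hA g (hF1 hg) hgI.1).1
    · exact hS ℓ hℓ (fun h2 => hm (Finset.mem_union_left _ h2)) A hA g (hF' hg) hgI
  · intro ℓ hm hℓ A hA g hg hgD
    exact (h1 ℓ (Finset.mem_union_right _ hm) hℓ A hA g (hF1 hg) hgD).1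
  · intro g
    obtain ⟨x, hx, hxg⟩ := g.2.1.2
    have e : x = ⟨g.1, hF' g.2⟩ := Subtype.ext hxg
    have hx' : psi ε ρb x = 1 := hx
    rw [e] at hx'
    have h3 := (psi_val ε ρb ⟨g.1, hF' g.2⟩).symm
    rw [hx', Units.val_one] at h3
    exact h3

/-- the field `ℚ(ζ_p)⁺`: the elements `g` with `ε(g) = ± 1` -/
def plus (ε : Γ →* (ZMod p)ˣ) : Subgroup Γ where
  carrier := {g | ε g = 1 ∨ ε g = -1}
  mul_mem' := by
    rintro a b (ha | ha) (hb | hb)
    · left; rw [map_mul, ha, hb, mul_one]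
    · right; rw [map_mul, ha, hb, one_mul]
    · right; rw [map_mul, ha, hb, mul_one]
    · left; rw [map_mul, ha, hb, neg_mul_neg, mul_one]
  one_mem' := Or.inl (map_one ε)
  inv_mem' := by
    rintro a (ha | ha)
    · left; rw [map_inv, ha, inv_one]
    · right; rw [map_inv, ha, inv_neg, inv_one]

theorem plus_open {ε : Γ →* (ZMod p)ˣ} (hε : IsCyclotomic ε) :
    IsOpen ((plus ε : Subgroup Γ) : Set Γ) :=
  Subgroup.isOpen_mono (H₁ := ε.ker) (fun _ hg => Or.inl hg) (cyc_open hε)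

theorem plus_normal (ε : Γ →* (ZMod p)ˣ) : (plus ε).Normal := ⟨fun n hn g => by
  have e : ε (g * n * g⁻¹) = ε n := by
    rw [map_mul, map_mul, map_inv, mul_comm (ε g), mul_inv_cancel_right]
  show ε (g * n * g⁻¹) = 1 ∨ ε (g * n * g⁻¹) = -1
  rw [e]
  exact hn⟩

theorem plus_ds (ε : Γ →* (ZMod p)ˣ) : ds ⊤ 1 ≤ plus ε := by
  show ⁅(⊤ : Subgroup Γ), ⊤⁆ ≤ plus ε
  rw [Subgroup.commutator_le]
  intro a _ b _
  left
  rw [map_commutatorElement, commutatorElement_eq_one_iff_mul_comm]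
  exact mul_comm _ _

end Pool.Agent.X264.WS
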