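import Pool.Agent.X264.WS.Grp

/-!
# The group `SL₂(k)` is perfect
-/

set_option autoImplicit false

open Matrix
open scoped commutatorElement

namespace Pool.Agent.X264.WS

variable {k : Type} [Field k] {F : Fld}

def U (x : k) : GL (Fin 2) k :=
  ⟨!![1, x; 0, 1], !![1, -x; 0, 1], by rw [Matrix.mul_fin_two, Matrix.one_fin_two]; simp,
    by rw [Matrix.mul_fin_two, Matrix.one_fin_two]; simp⟩

def L (x : k) : GL (Fin 2) k :=
  ⟨!![1, 0; x, 1], !![1, 0; -x, 1], by rw [Matrix.mul_fin_two, Matrix.one_fin_two]; simp,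
    by rw [Matrix.mul_fin_two, Matrix.one_fin_two]; simp⟩

def D (a : kˣ) : GL (Fin 2) k :=
  ⟨!![(a : k), 0; 0, ((a⁻¹ : kˣ) : k)], !![((a⁻¹ : kˣ) : k), 0; 0, (a : k)],
    by rw [Matrix.mul_fin_two, Matrix.one_fin_two]; simp,
    by rw [Matrix.mul_fin_two, Matrix.one_fin_two]; simp⟩

theorem det_U (x : k) : (U x).1.det = 1 := by
  show (!![1, x; 0, 1] : Matrix (Fin 2) (Fin 2) k).det = 1
  rw [Matrix.det_fin_two_of]; ring

theorem det_L (x : k) : (L x).1.det = 1 := by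
  show (!![1, 0; x, 1] : Matrix (Fin 2) (Fin 2) k).det = 1
  rw [Matrix.det_fin_two_of]; ring

theorem det_D (a : kˣ) : (D a).1.det = 1 := by
  show (!![(a : k), 0; 0, ((a⁻¹ : kˣ) : k)] : Matrix (Fin 2) (Fin 2) k).det = 1
  rw [Matrix.det_fin_two_of, Units.mul_inv]; ring

theorem comm_U (a : kˣ) (x : k) : ⁅D a, U x⁆ = U (((a : k) ^ 2 - 1) * x) := by
  rw [commutatorElement_def]
  apply Units.ext
  show !![(a : k), 0; 0, ((a⁻¹ : kˣ) : k)] * !![1, x; 0, 1] * !![((a⁻¹ : kˣ) : k), 0; 0, (a : k)] *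
    !![1, -x; 0, 1] = !![1, ((a : k) ^ 2 - 1) * x; 0, 1]
  have h : (a : k) * ((a⁻¹ : kˣ) : k) = 1 := Units.mul_inv a
  rw [Matrix.mul_fin_two, Matrix.mul_fin_two, Matrix.mul_fin_two]
  congr 1
  ext i j
  fin_cases i <;> fin_cases j <;> simp <;> ring

theorem comm_L (a : kˣ) (x : k) : ⁅(D a)⁻¹, L x⁆ = L (((a : k) ^ 2 - 1) * x) := by
  rw [commutatorElement_def, inv_inv]
  apply Units.ext
  show !![((a⁻¹ : kˣ) : k), 0; 0, (a : k)] * !![1, 0; x, 1] * !![(a : k), 0; 0, ((a⁻¹ : kˣ) : k)] *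
    !![1, 0; -x, 1] = !![1, 0; ((a : k) ^ 2 - 1) * x, 1]
  have h : (a : k) * ((a⁻¹ : kˣ) : k) = 1 := Units.mul_inv a
  rw [Matrix.mul_fin_two, Matrix.mul_fin_two, Matrix.mul_fin_two]
  congr 1
  ext i j
  fin_cases i <;> fin_cases j <;> simp <;> ring

/-- decomposition into transvections -/
theorem decomp {g : GL (Fin 2) k} (hg : g.1.det = 1) (hr : g.1 1 0 ≠ 0) :
    g = U ((g.1 0 0 - 1) / g.1 1 0) * L (g.1 1 0) * U ((g.1 1 1 - 1) / g.1 1 0) := by
  apply Units.ext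
  rw [Matrix.det_fin_two] at hg
  show g.1 = !![1, (g.1 0 0 - 1) / g.1 1 0; 0, 1] * !![1, 0; g.1 1 0, 1] *
    !![1, (g.1 1 1 - 1) / g.1 1 0; 0, 1]
  conv_lhs => rw [Matrix.eta_fin_two g.1]
  rw [Matrix.mul_fin_two, Matrix.mul_fin_two]
  generalize g.1 0 0 = p at *
  generalize g.1 0 1 = q at *
  generalize g.1 1 0 = r at *
  generalize g.1 1 1 = s at *
  have e1 : p = (1 * 1 + (p - 1) / r * r) * 1 + (1 * 0 + (p - 1) / r * 1) * 0 := by
    field_simp; ring
  have e2 : q = (1 * 1 + (p - 1) / r * r) * ((s - 1) / r) + (1 * 0 + (p - 1) / r * 1) * 1 := by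
    field_simp; linear_combination (-1 : k) * hg
  have e3 : r = (0 * 1 + 1 * r) * 1 + (0 * 0 + 1 * 1) * 0 := by ring
  have e4 : s = (0 * 1 + 1 * r) * ((s - 1) / r) + (0 * 0 + 1 * 1) * 1 := by
    field_simp; ring
  rw [← e1, ← e2, ← e3, ← e4]

/-- A subgroup containing all elements of determinant one has a commutator subgroup which contains
them, if some `a` has `a² ≠ 1`. -/
theorem mem_commutator {a : kˣ} (ha : (a : k) ^ 2 ≠ 1) {S : Subgroup (GL (Fin 2) k)}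
    (hS : ∀ g : GL (Fin 2) k, g.1.det = 1 → g ∈ S) (g : GL (Fin 2) k) (hg : g.1.det = 1) :
    g ∈ ⁅S, S⁆ := by
  have h0 : (a : k) ^ 2 - 1 ≠ 0 := sub_ne_zero.2 ha
  have hU : ∀ x : k, U x ∈ ⁅S, S⁆ := fun x => by
    have := Subgroup.commutator_mem_commutator (hS _ (det_D a))
      (hS _ (det_U (x / ((a : k) ^ 2 - 1))))
    rwa [comm_U, mul_div_cancel₀ _ h0] at this
  have hL : ∀ x : k, L x ∈ ⁅S, S⁆ := fun x => by
    have := Subgroup.commutator_mem_commutator (S.inv_mem (hS _ (det_D a)))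
      (hS _ (det_L (x / ((a : k) ^ 2 - 1))))
    rwa [comm_L, mul_div_cancel₀ _ h0] at this
  have key : ∀ g : GL (Fin 2) k, g.1.det = 1 → g.1 1 0 ≠ 0 → g ∈ ⁅S, S⁆ := fun g hg hr => by
    rw [decomp hg hr]
    exact mul_mem (mul_mem (hU _) (hL _)) (hU _)
  by_cases hr : g.1 1 0 = 0
  · have h1 : L 1 * g ∈ ⁅S, S⁆ := by
      apply key
      · rw [Units.val_mul, Matrix.det_mul, det_L, hg, mul_one]
      · have e : (L 1 * g).1 1 0 = g.1 0 0 + g.1 1 0 := by
          rw [Units.val_mul, Matrix.mul_apply, Fin.sum_univ_two]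
          show (1 : k) * g.1 0 0 + 1 * g.1 1 0 = _
          ring
        rw [e, hr, add_zero]
        intro h2
        rw [Matrix.det_fin_two, h2, hr] at hg
        simp at hg
    have h2 := mul_mem (inv_mem (hL 1)) h1
    rwa [inv_mul_cancel_left] at h2
  · exact key g hg hr

/-- If the image contains all elements of determinant one, so does the image of each derived group. -/
theorem exists_ds {a : kˣ} (ha : (a : k) ^ 2 ≠ 1) {ρ : Rp k F}
    (h : ∀ g : GL (Fin 2) k, g.1.det = 1 → ∃ x, ρ x = g) (n : ℕ) (g : GL (Fin 2) k)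
    (hg : g.1.det = 1) : ∃ (x : Γ) (hx : x ∈ F.G), x ∈ ds F.G n ∧ ρ ⟨x, hx⟩ = g := by
  have key : ∀ n, ∀ g : GL (Fin 2) k, g.1.det = 1 → g ∈ (derivedSeries F.G n).map ρ := by
    intro n
    induction n with
    | zero =>
      intro g hg
      obtain ⟨x, hx⟩ := h g hg
      exact ⟨x, trivial, hx⟩
    | succ n ih =>
      intro g hg
      show g ∈ Subgroup.map ρ ⁅derivedSeries F.G n, derivedSeries F.G n⁆
      rw [Subgroup.map_commutator]
      exact mem_commutator ha ih g hg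
  obtain ⟨x, hx, hxg⟩ := key n g hg
  refine ⟨x.1, x.2, ?_, hxg⟩
  rw [← map_derivedSeries]
  exact Subgroup.mem_map_of_mem _ hx

/-- Such representations have nonsolvable image. -/
theorem not_solvable_of_det {a : kˣ} (ha : (a : k) ^ 2 ≠ 1) {ρ : Rp k F}
    (h : ∀ g : GL (Fin 2) k, g.1.det = 1 → ∃ x, ρ x = g) : ¬ Group.IsSolvable ρ.range := by
  intro hs
  rw [solvable_iff] at hs
  obtain ⟨n, hn⟩ := hs
  obtain ⟨x, hx, hxd, he⟩ := exists_ds ha h n (U 1) (det_U 1)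
  have h1 := hn x hx hxd
  rw [he] at h1
  have h2 : (U (1 : k)).1 0 1 = (1 : GL (Fin 2) k).1 0 1 := by rw [h1]
  rw [Units.val_one, Matrix.one_apply_ne (by decide)] at h2
  exact one_ne_zero h2

end Pool.Agent.X264.WS
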