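import Pool.Agent.X264.WS.Base
import Pool.Agent.X264.WS.Perfect

/-!
# Representations over prime fields with large image
-/

set_option autoImplicit false

open Matrix
open scoped commutatorElement

noncomputable section

namespace Pool.Agent.X264.WS

variable {ℓ : ℕ} [Fact ℓ.Prime] {k K : Type} [Field k] [Field K] [Algebra (ZMod ℓ) k]
  {O : Subring K} {F : Fld}

variable (k) in
/-- the representation over `k = 𝔽̄_ℓ` given by a representation over `𝔽_ℓ` -/
def bc (ρ : Rp (ZMod ℓ) F) : Rp k F := (GeneralLinearGroup.map (algebraMap (ZMod ℓ) k)).comp ρ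

/-- The image contains all elements of determinant one. -/
def Big (ρ : Rp (ZMod ℓ) F) : Prop :=
  ∀ g : GL (Fin 2) (ZMod ℓ), g.1.det = 1 → ∃ x, ρ x = g

/-- The special case for the prime `ℓ`: `F` contains `L₀` and `ℚ(ζ_ℓ)⁺`, and `ρ̄` has values in
`GL₂(𝔽_ℓ)`, with image the group of all matrices of determinant `± 1`, is everywhere unramified,
trivial on the decomposition groups above `ℓ` and the primes of `S₀`, and has determinant `ε⁻¹`; it
comes from a form of level `(1)` and parallel weight 2. -/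
def Forms.PrimeFieldCase (W : Forms K) (π : O →+* k) (ε : Γ →* (ZMod ℓ)ˣ) (L₀ : Fld)
    (S₀ : Finset ℕ) : Prop :=
  ∀ F : Fld, F.G ≤ L₀.G → F.G ≤ plus ε → ∀ ρ : Rp (ZMod ℓ) F, Cont ρ → TotallyOdd ρ →
    (∀ g : GL (Fin 2) (ZMod ℓ), (∃ x, ρ x = g) ↔ g.1.det = 1 ∨ g.1.det = -1) → Unramified ρ →
    TrivialAbove ρ ℓ → (∀ q ∈ S₀, q.Prime → TrivialAbove ρ q) → HasDet ε ρ →
      W.IsMinimallyModular π (bc k ρ)

theorem bc_injective : Function.Injective
    (GeneralLinearGroup.map (n := Fin 2) (algebraMap (ZMod ℓ) k)) := by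
  intro a b h
  apply Units.ext
  apply Matrix.map_injective (algebraMap (ZMod ℓ) k).injective
  exact congrArg Units.val h

theorem bc_eq_one {ρ : Rp (ZMod ℓ) F} {g : F.G} : bc k ρ g = 1 ↔ ρ g = 1 := by
  constructor
  · intro h
    apply bc_injective (k := k)
    rw [map_one]
    exact h
  · intro h
    show GeneralLinearGroup.map _ (ρ g) = 1
    rw [h, map_one]

theorem dt_bc (ρ : Rp (ZMod ℓ) F) (g : F.G) :
    dt (bc k ρ) g = algebraMap (ZMod ℓ) k (dt ρ g) := by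
  show (((ρ g).1).map (algebraMap (ZMod ℓ) k)).det = _
  rw [← RingHom.mapMatrix_apply, ← RingHom.map_det]
  rfl

theorem cont_bc {ρ : Rp (ZMod ℓ) F} : Cont (bc k ρ) ↔ Cont ρ := by
  have : (bc k ρ).ker = ρ.ker := by
    ext g
    exact bc_eq_one
  unfold Cont
  rw [this]

theorem odd_bc {ρ : Rp (ZMod ℓ) F} (h : TotallyOdd ρ) : TotallyOdd (bc k ρ) := fun c hc => by
  rw [dt_bc, h c hc, map_neg, map_one]

theorem solv_bc {ρ : Rp (ZMod ℓ) F} (h : ¬ Group.IsSolvable ρ.range) :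
    ¬ Group.IsSolvable (bc k ρ).range := by
  rw [solvable_iff] at h ⊢
  rintro ⟨n, hn⟩
  exact h ⟨n, fun g hg h1 => bc_eq_one.1 (hn g hg h1)⟩

theorem exists_unit (h : 5 < ℓ) : ∃ a : (ZMod ℓ)ˣ, (a : ZMod ℓ) ^ 2 ≠ 1 := by
  have hp : ℓ.Prime := Fact.out
  have h2 : (2 : ZMod ℓ) ≠ 0 := by
    intro h0
    have h1 : ((2 : ℕ) : ZMod ℓ) = 0 := by exact_mod_cast h0
    rw [ZMod.natCast_eq_zero_iff] at h1
    exact absurd (Nat.le_of_dvd (by norm_num) h1) (by omega)
  refine ⟨Units.mk0 2 h2, ?_⟩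
  rw [Units.val_mk0]
  intro h0
  have h1 : ((3 : ℕ) : ZMod ℓ) = 0 := by
    push_cast
    linear_combination h0
  rw [ZMod.natCast_eq_zero_iff] at h1
  exact absurd (Nat.le_of_dvd (by norm_num) h1) (by omega)

theorem adm_bc (hℓ : 5 < ℓ) {ρ : Rp (ZMod ℓ) F} (hc : Cont ρ) (ho : TotallyOdd ρ) (hb : Big ρ) :
    Adm (bc k ρ) := by
  obtain ⟨a, ha⟩ := exists_unit hℓ
  exact ⟨cont_bc.2 hc, odd_bc ho, solv_bc (not_solvable_of_det ha hb)⟩

/-- The restriction of a representation with big image to a solvable extension has big image. -/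
theorem big_res (hℓ : 5 < ℓ) {F' : Fld} (h : F'.G ≤ F.G) {n : ℕ} (hn : ds F.G n ≤ F'.G)
    {ρ : Rp (ZMod ℓ) F} (hb : Big ρ) : Big (res h ρ) := by
  obtain ⟨a, ha⟩ := exists_unit hℓ
  intro g hg
  obtain ⟨x, hx, hxd, he⟩ := exists_ds ha hb n g hg
  exact ⟨⟨x, hn hxd⟩, he⟩

theorem exists_conj : ∃ c : Γ, IsConj c := by
  have : Algebra.IsAlgebraic ℚ Qb := AlgebraicClosure.isAlgebraic ℚ
  have : IsAlgClosure ℚ Qb := ⟨inferInstance, inferInstance⟩
  have : Normal ℚ Qb := IsAlgClosure.normal ℚ Qb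
  let φ : Qb →ₐ[ℚ] ℂ := IsAlgClosed.lift
  let _ : Algebra Qb ℂ := φ.toRingHom.toAlgebra
  have : IsScalarTower ℚ Qb ℂ := IsScalarTower.of_algebraMap_eq fun x => (φ.commutes x).symm
  let χ : ℂ ≃ₐ[ℚ] ℂ := Complex.conjAe.restrictScalars ℚ
  refine ⟨(χ.restrictNormal Qb : Qb ≃ₐ[ℚ] Qb), φ.toRingHom, fun x => ?_⟩
  exact χ.restrictNormal_commutes Qb x

theorem hasDet_bc {ε : Γ →* (ZMod ℓ)ˣ} {ρ : Rp (ZMod ℓ) F} : HasDet ε (bc k ρ) ↔ HasDet ε ρ := by
  constructor
  · intro h g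
    rw [Algebra.algebraMap_self, RingHom.id_apply]
    apply (algebraMap (ZMod ℓ) k).injective
    rw [map_mul, map_one, ← dt_bc]
    exact h g
  · intro h g
    rw [dt_bc, ← map_mul]
    have := h g
    rw [Algebra.algebraMap_self, RingHom.id_apply] at this
    rw [this, map_one]

/-- the image is the group of matrices of determinant `± 1` -/
theorem image_eq {ε : Γ →* (ZMod ℓ)ˣ} {ρ : Rp (ZMod ℓ) F} (hb : Big ρ) (ho : TotallyOdd ρ)
    (hd : HasDet ε ρ) (hE : F.G ≤ plus ε) (g : GL (Fin 2) (ZMod ℓ)) :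
    (∃ x, ρ x = g) ↔ g.1.det = 1 ∨ g.1.det = -1 := by
  constructor
  · rintro ⟨x, rfl⟩
    have h1 := hd x
    rw [Algebra.algebraMap_self, RingHom.id_apply] at h1
    rcases hE x.2 with h2 | h2
    · left
      rw [h2, Units.val_one, mul_one] at h1
      exact h1
    · right
      rw [h2, Units.val_neg, Units.val_one] at h1
      have h3 : dt ρ x = -1 := by linear_combination -h1
      exact h3
  · rintro (h1 | h1)
    · exact hb g h1
    · obtain ⟨c, hcc⟩ := exists_conj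
      have h2 := ho c hcc
      obtain ⟨x, hx⟩ := hb ((ρ ⟨c, F.real c hcc⟩)⁻¹ * g) (by
        rw [Units.val_mul, Matrix.det_mul, h1]
        have h3 : ((ρ ⟨c, F.real c hcc⟩)⁻¹).1.det * (ρ ⟨c, F.real c hcc⟩).1.det = 1 := by
          rw [← Matrix.det_mul, ← Units.val_mul, inv_mul_cancel, Units.val_one, Matrix.det_one]
        have h4 : (ρ ⟨c, F.real c hcc⟩).1.det = -1 := h2
        rw [h4] at h3
        exact h3)
      exact ⟨⟨c, F.real c hcc⟩ * x, by rw [map_mul, hx, mul_inv_cancel_left]⟩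

theorem res_bc {F F' : Fld} (h : F'.G ≤ F.G) (ρ : Rp (ZMod ℓ) F) :
    res h (bc k ρ) = bc k (res h ρ) := rfl

namespace Forms

variable {W : Forms K} {π : O →+* k} {ε : Γ →* (ZMod ℓ)ˣ}

theorem primeField_of_weakSerre (K1 : W.IsKnown π ε) (hℓ : 5 < ℓ) (L₀ : Fld)
    (S₀ : Finset ℕ) (h : W.WeakSerre π) : W.PrimeFieldCase π ε L₀ S₀ := by
  intro F _ _ ρ hc ho hi hu ht _ hd
  have ha : Adm (bc k ρ) := adm_bc hℓ hc ho fun g hg => (hi g).2 (Or.inl hg)
  refine K1.minimal F (bc k ρ) ha (h F (bc k ρ) ha.1 (irr_of_not_solvable ha.2.2) ha.2.1) ?_ ?_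
    (hasDet_bc.2 hd)
  · intro q hq A hA g hg hgI
    exact bc_eq_one.2 (hu q hq A hA g hg hgI)
  · intro A hA g hg hgD
    exact bc_eq_one.2 (ht A hA g hg hgD)

/-- The special case implies automorphy of potentially Barsotti-Tate lifts of representations over
`𝔽_ℓ` with big image. -/
theorem automorphic_of_primeField (K1 : W.IsKnown π ε) (hℓ : 5 < ℓ) {L₀ : Fld}
    (hL : SolvableOverQ L₀) {S₀ : Finset ℕ} (h : W.PrimeFieldCase π ε L₀ S₀) {F : Fld}
    {r : Rp K F} {ρ : Rp (ZMod ℓ) F} (hp : W.PBT r) (hr : Reduces π r (bc k ρ)) (hc : Cont ρ)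
    (ho : TotallyOdd ρ) (hb : Big ρ) : W.IsAutomorphic r := by
  obtain ⟨F', hst, hFL, hFE, hu, ht, hd⟩ := exists_field (k := k) K1.cyc K1.ramification
    K1.classField hL (insert ℓ S₀) (plus_open K1.cyc) (plus_normal _) (plus_ds _)
    (fun c hcc => Or.inr (cyc_conj K1.cyc hcc)) ((cont_bc (k := k)).2 hc) (odd_bc (k := k) ho)
  obtain ⟨hle, hnor, n, hn⟩ := hst
  have hb' : Big (res hle ρ) := big_res hℓ hle hn hb
  have ho' : TotallyOdd (res hle ρ) := fun c hcc => ho c hcc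
  have hc' : Cont (res hle ρ) := cont_res hle hc
  rw [res_bc] at hd
  have hd' : HasDet ε (res hle ρ) := hasDet_bc.1 hd
  have hu' : Unramified (res hle ρ) := by
    intro q hq A hA g hg hgI
    have h1 := hu q hq A hA g hg hgI
    rw [res_bc] at h1
    exact bc_eq_one.1 h1
  have ht' : ∀ q ∈ insert ℓ S₀, q.Prime → TrivialAbove (res hle ρ) q := by
    intro q hq hqp A hA g hg hgD
    have h1 := ht q hq hqp A hA g hg hgD
    rw [res_bc] at h1
    exact bc_eq_one.1 h1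
  have hmin : W.IsMinimallyModular π (bc k (res hle ρ)) :=
    h F' hFL hFE (res hle ρ) hc' ho' (image_eq hb' ho' hd' hFE) hu'
      (ht' ℓ (Finset.mem_insert_self _ _) Fact.out)
      (fun q hq hqp => ht' q (Finset.mem_insert_of_mem hq) hqp) hd'
  obtain ⟨f, -, hf⟩ := hmin
  have hadm : Adm (bc k (res hle ρ)) := adm_bc hℓ hc' ho' hb'
  have hr' : Reduces π (res hle r) (res hle (bc k ρ)) := reduces_res hle hr
  have hp' : W.PBT (res hle r) := K1.restrict F F' hle r hp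
  have hadm' : Adm (res hle (bc k ρ)) := by
    rw [res_bc]
    exact hadm
  have hm' : W.IsModular π (res hle (bc k ρ)) := by
    rw [res_bc]
    exact ⟨f, hf⟩
  have ha' : W.IsAutomorphic (res hle r) :=
    K1.lifting F' (res hle r) (res hle (bc k ρ)) hp' hr' hadm' hm'
  exact K1.descent F F' ⟨hle, hnor, n, hn⟩ r (bc k ρ) hp hr hadm' ha'

end Forms

end Pool.Agent.X264.WS
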