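import Mathlib

/-!
# Residual representations of totally real fields, and Hilbert modular forms

The Galois groups, places, complex conjugations, residual and `p`-adic representations are the actual
ones; the set of Hilbert eigenforms is abstract data.
-/

set_option autoImplicit false

open Matrix

noncomputable section

namespace Pool.Agent.X264.WS

/-- an algebraic closure of `ℚ` -/
abbrev Qb := AlgebraicClosure ℚ

/-- `Gal(ℚ̄/ℚ)`, with the Krull topology -/
def Γ : Type := Qb ≃ₐ[ℚ] Qb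

instance grp : Group Γ := AlgEquiv.aut

instance top : TopologicalSpace Γ := krullTopology ℚ Qb

instance topGrp : IsTopologicalGroup Γ := inferInstanceAs (IsTopologicalGroup (Qb ≃ₐ[ℚ] Qb))

/-- the action on `ℚ̄` -/
def act (g : Γ) : Qb ≃ₐ[ℚ] Qb := g

/-- `c` is a complex conjugation. -/
def IsConj (c : Γ) : Prop := ∃ φ : Qb →+* ℂ, ∀ x, φ (act c x) = starRingEnd ℂ (φ x)

/-- A totally real number field `F ⊂ ℚ̄`, given by the open subgroup `G = Gal(ℚ̄/F)`, which contains
all complex conjugations. -/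
structure Fld where
  G : Subgroup Γ
  isOpen : IsOpen (G : Set Γ)
  real : ∀ c, IsConj c → c ∈ G

/-- `A` is a place of `ℚ̄` above `ℓ`. -/
def Above (A : ValuationSubring Qb) (ℓ : ℕ) : Prop := A.valuation (ℓ : Qb) < 1

/-- the decomposition group of a place -/
def Dec (A : ValuationSubring Qb) : Set Γ := {g | ∀ x, act g x ∈ A ↔ x ∈ A}

/-- the inertia group of a place: the elements of the decomposition group acting trivially on the
residue field -/
def Ine (A : ValuationSubring Qb) : Set Γ := {g ∈ Dec A | ∀ x ∈ A, A.valuation (act g x - x) < 1}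

/-- the derived series of a subgroup of `Gal(ℚ̄/ℚ)` -/
def ds (H : Subgroup Γ) : ℕ → Subgroup Γ
  | 0 => H
  | n + 1 => ⁅ds H n, ds H n⁆

/-- `F'/F` is a Galois extension with solvable Galois group (some derived subgroup of `Gal(ℚ̄/F)` fixes
`F'`). -/
def Step (F F' : Fld) : Prop :=
  F'.G ≤ F.G ∧ (F'.G.subgroupOf F.G).Normal ∧ ∃ n, ds F.G n ≤ F'.G

/-- `L₀` is Galois over `ℚ` with solvable Galois group. -/
def SolvableOverQ (L₀ : Fld) : Prop := L₀.G.Normal ∧ ∃ n, ds ⊤ n ≤ L₀.G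

/-- restriction to `F' ⊇ F` -/
def res {R : Type*} [Group R] {F F' : Fld} (h : F'.G ≤ F.G) (ρ : F.G →* R) : F'.G →* R :=
  ρ.comp (Subgroup.inclusion h)

/-- representations `Gal(ℚ̄/F) → GL₂(k)` -/
abbrev Rp (k : Type) [Field k] (F : Fld) := F.G →* GL (Fin 2) k

/- In the result `k = 𝔽̄_p`, `K = ℚ̄_p` and `O = ℤ̄_p`. -/
variable {p : ℕ} {k K : Type} [Field k] [Field K] {O : Subring K} {F : Fld}

/-- trace and determinant -/
def tr (ρ : Rp k F) (g : F.G) : k := (ρ g).1.trace
def dt (ρ : Rp k F) (g : F.G) : k := (ρ g).1.det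

/-- `ρ̄` is continuous. -/
def Cont (ρ : Rp k F) : Prop := IsOpen ((ρ.ker.map F.G.subtype : Subgroup Γ) : Set Γ)

/-- `ρ̄` is totally odd. -/
def TotallyOdd (ρ : Rp k F) : Prop :=
  ∀ c (hc : IsConj c), dt ρ ⟨c, F.real c hc⟩ = -1

/-- `ρ̄` is irreducible: it fixes no line. -/
def Irr (ρ : Rp k F) : Prop :=
  ∀ v : Fin 2 → k, v ≠ 0 → ∃ g, ∀ a : k, (ρ g).1 *ᵥ v ≠ a • v

/-- `ρ̄` is unramified everywhere (at all finite places). -/
def Unramified (ρ : Rp k F) : Prop :=
  ∀ ℓ : ℕ, ℓ.Prime → ∀ A, Above A ℓ → ∀ g (hg : g ∈ F.G), g ∈ Ine A → ρ ⟨g, hg⟩ = 1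

/-- `ρ̄` is trivial on the decomposition groups of all places above `ℓ`. -/
def TrivialAbove (ρ : Rp k F) (ℓ : ℕ) : Prop :=
  ∀ A, Above A ℓ → ∀ g (hg : g ∈ F.G), g ∈ Dec A → ρ ⟨g, hg⟩ = 1

/-- `ε` is the mod `p` cyclotomic character. -/
def IsCyclotomic (ε : Γ →* (ZMod p)ˣ) : Prop :=
  ∀ (g : Γ) (ζ : Qb), ζ ^ p = 1 → act g ζ = ζ ^ ((ε g : ZMod p)).val

/-- `det ρ̄ = ε⁻¹` -/
def HasDet [Algebra (ZMod p) k] (ε : Γ →* (ZMod p)ˣ) (ρ : Rp k F) : Prop :=
  ∀ g : F.G, dt ρ g * algebraMap (ZMod p) k (ε g) = 1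

/-- continuous, totally odd, with nonsolvable image -/
def Adm (ρ : Rp k F) : Prop := Cont ρ ∧ TotallyOdd ρ ∧ ¬ Group.IsSolvable ρ.range

/-- The semisimplified reduction of `ρ` is `ρ̄` (a semisimple representation): same traces and
determinants. -/
def Reduces (π : O →+* k) (ρ : Rp K F) (ρb : Rp k F) : Prop :=
  ∀ g, ∃ t d : O, (t : K) = tr ρ g ∧ (d : K) = dt ρ g ∧ π t = tr ρb g ∧ π d = dt ρb g

/-- same traces and determinants, i.e. isomorphic up to semisimplification -/
def Same (ρ ρ' : Rp K F) : Prop := ∀ g, tr ρ g = tr ρ' g ∧ dt ρ g = dt ρ' g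

variable (K) in
/-- The data which are not formalised: the Hilbert eigenforms over `F` (all levels, all weights
`(k_i)` with `k_i ≥ 2` of the same parity), their `p`-adic representations; those of level `(1)`,
parallel weight 2 and trivial character; and the class of potentially Barsotti-Tate representations
(totally odd, ramified at finitely many places, potentially Barsotti-Tate at all places above `p`). -/
structure Forms where
  Form : Fld → Type
  gal : ∀ {F : Fld}, Form F → Rp K F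
  IsMinimal : ∀ {F : Fld}, Form F → Prop
  PBT : ∀ {F : Fld}, Rp K F → Prop

namespace Forms

variable (W : Forms K) (π : O →+* k)

/-- `ρ̄` is modular. -/
def IsModular (ρb : Rp k F) : Prop := ∃ f : W.Form F, Reduces π (W.gal f) ρb

/-- `ρ̄` comes from a form of level `(1)`, parallel weight 2 and trivial character. -/
def IsMinimallyModular (ρb : Rp k F) : Prop :=
  ∃ f : W.Form F, W.IsMinimal f ∧ Reduces π (W.gal f) ρb

/-- `ρ` comes from a form. -/
def IsAutomorphic (ρ : Rp K F) : Prop := ∃ f : W.Form F, Same ρ (W.gal f)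

/-- Existence of potentially Barsotti-Tate lifts. -/
def HasLifts : Prop :=
  ∀ (F : Fld) (ρb : Rp k F), Adm ρb → ∃ ρ, W.PBT ρ ∧ Reduces π ρ ρb

/-- Restrictions are potentially Barsotti-Tate. -/
def HasRestriction : Prop :=
  ∀ (F F' : Fld) (h : F'.G ≤ F.G) (ρ : Rp K F), W.PBT ρ → W.PBT (res h ρ)

/-- Modularity lifting. -/
def HasLifting : Prop :=
  ∀ (F : Fld) (ρ : Rp K F) (ρb : Rp k F), W.PBT ρ → Reduces π ρ ρb → Adm ρb →
    W.IsModular π ρb → W.IsAutomorphic ρ

/-- Solvable descent. -/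
def HasDescent : Prop :=
  ∀ (F F' : Fld) (h : Step F F') (ρ : Rp K F) (ρb : Rp k F), W.PBT ρ → Reduces π ρ ρb →
    Adm (res h.1 ρb) → W.IsAutomorphic (res h.1 ρ) → W.IsAutomorphic ρ

/-- Modular lifts with prescribed local properties: level `(1)` and parallel weight 2. -/
def HasMinimalForms [Algebra (ZMod p) k] (ε : Γ →* (ZMod p)ˣ) : Prop :=
  ∀ (F : Fld) (ρb : Rp k F), Adm ρb → W.IsModular π ρb → Unramified ρb → TrivialAbove ρb p →
    HasDet ε ρb → W.IsMinimallyModular π ρb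

/-- Solvable image (Langlands-Tunnell). -/
def HasSolvableCase : Prop :=
  ∀ (F : Fld) (ρb : Rp k F), Cont ρb → TotallyOdd ρb → Irr ρb → Group.IsSolvable ρb.range →
    W.IsModular π ρb

variable (k) in
/-- Almost all primes are unramified. -/
def HasRamification : Prop :=
  ∀ (F : Fld) (ρb : Rp k F), Cont ρb → ∃ S : Finset ℕ, ∀ ℓ : ℕ, ℓ.Prime → ℓ ∉ S →
    ∀ A, Above A ℓ → ∀ g (hg : g ∈ F.G), g ∈ Ine A → ρb ⟨g, hg⟩ = 1

variable (k) in
/-- Class field theory (Grunwald-Wang): there is a totally real solvable Galois extension `F'/F` over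
which `ρ̄` and `ε` are trivial on the decomposition groups above a finite set of primes. -/
def HasClassFields (ε : Γ →* (ZMod p)ˣ) : Prop :=
  ∀ (F : Fld) (ρb : Rp k F), Cont ρb → ∀ S : Finset ℕ, ∃ (F' : Fld) (h : Step F F'),
    ∀ ℓ ∈ S, ℓ.Prime → ∀ A, Above A ℓ → ∀ g (hg : g ∈ F'.G), g ∈ Dec A →
      ρb ⟨g, h.1 hg⟩ = 1 ∧ ε g = 1

/-- The properties which are used. -/
structure IsKnown [Algebra (ZMod p) k] (ε : Γ →* (ZMod p)ˣ) : Prop where
  /-- `p ≠ 2, 5` -/
  ne : p ≠ 2 ∧ p ≠ 5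
  cyc : IsCyclotomic ε
  lifts : W.HasLifts π
  restrict : W.HasRestriction
  lifting : W.HasLifting π
  descent : W.HasDescent π
  minimal : W.HasMinimalForms π ε
  solvable : W.HasSolvableCase π
  ramification : HasRamification k
  classField : HasClassFields k ε

end Forms

end Pool.Agent.X264.WS
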