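import Pool.Agent.X264.WS.Big

/-!
# All primes at once: compatible systems, and representations over prime fields
-/

set_option autoImplicit false

open Matrix
open scoped commutatorElement

noncomputable section

namespace Pool.Agent.X264.WS

/-- algebraic closures of `𝔽_p` and `ℚ_p`, and the ring of integers of `ℚ̄_p` -/
def kp (p : ℕ) [Fact p.Prime] : Type := AlgebraicClosure (ZMod p)

def Kp (p : ℕ) [Fact p.Prime] : Type := AlgebraicClosure ℚ_[p]

instance kpF (p : ℕ) [Fact p.Prime] : Field (kp p) := AlgebraicClosure.instField (k := ZMod p)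

instance kpA (p : ℕ) [Fact p.Prime] : Algebra (ZMod p) (kp p) :=
  AlgebraicClosure.instAlgebra (k := ZMod p)

instance KpF (p : ℕ) [Fact p.Prime] : Field (Kp p) := AlgebraicClosure.instField (k := ℚ_[p])

def Op (p : ℕ) [Fact p.Prime] : Subring (Kp p) :=
  (integralClosure ℤ_[p] (AlgebraicClosure ℚ_[p])).toSubring

/-- The data for all primes: forms, reduction maps, cyclotomic characters, and the compatible systems
(potentially automorphic, Hodge-Tate weights 0 and 1, totally odd); the members of a system at `p` are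
indexed by the embeddings of the coefficient field in `ℚ̄_p`. -/
structure Family where
  W : ∀ (p : ℕ) [Fact p.Prime], Forms (Kp p)
  π : ∀ (p : ℕ) [Fact p.Prime], Op p →+* kp p
  ε : ∀ (p : ℕ) [Fact p.Prime], Γ →* (ZMod p)ˣ
  Sys : Fld → Type
  Emb : ∀ {F : Fld}, Sys F → ℕ → Type
  member : ∀ {F : Fld} (R : Sys F) (p : ℕ) [Fact p.Prime], Emb R p → Rp (Kp p) F

namespace Family

variable (T : Family)

/-- The member of `R` at `i` is potentially Barsotti-Tate with reduction `ρ̄`. -/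
def Lifts {F : Fld} (R : T.Sys F) (p : ℕ) [Fact p.Prime] (i : T.Emb R p) (ρb : Rp (kp p) F) :
    Prop := (T.W p).PBT (T.member R p i) ∧ Reduces (T.π p) (T.member R p i) ρb

/-- `ρ̄` has a potentially Barsotti-Tate lift which is a member of a compatible system (potential
modularity). -/
def HasSystems : Prop :=
  ∀ (p : ℕ) [Fact p.Prime], p ≠ 2 → p ≠ 5 → ∀ (F : Fld) (ρb : Rp (kp p) F), Adm ρb →
    ∃ (R : T.Sys F) (i : T.Emb R p), T.Lifts R p i ρb

/-- Large image at infinitely many primes which split completely in the coefficient field. -/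
def HasLargeImages : Prop :=
  ∀ (p : ℕ) [Fact p.Prime] (F : Fld) (R : T.Sys F) (i : T.Emb R p) (ρb : Rp (kp p) F), Adm ρb →
    T.Lifts R p i ρb → ∀ N : ℕ, ∃ (ℓ : ℕ) (_ : Fact ℓ.Prime) (j : T.Emb R ℓ)
      (ρ : Rp (ZMod ℓ) F), N < ℓ ∧ Cont ρ ∧ TotallyOdd ρ ∧ Big ρ ∧ T.Lifts R ℓ j (bc (kp ℓ) ρ)

/-- If one member of a system is automorphic, then all members are. -/
def HasIndependence : Prop :=
  ∀ (F : Fld) (R : T.Sys F) (p ℓ : ℕ) [Fact p.Prime] [Fact ℓ.Prime] (i : T.Emb R p)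
    (j : T.Emb R ℓ), (T.W ℓ).IsAutomorphic (T.member R ℓ j) →
      (T.W p).IsAutomorphic (T.member R p i)

/-- The properties which are used. -/
structure IsKnown : Prop where
  each : ∀ (p : ℕ) [Fact p.Prime], p ≠ 2 → p ≠ 5 → (T.W p).IsKnown (T.π p) (T.ε p)
  systems : T.HasSystems
  images : T.HasLargeImages
  independence : T.HasIndependence

/-- the weak Serre conjecture for all primes `p ≠ 2, 5` -/
def WeakSerre : Prop :=
  ∀ (p : ℕ) [Fact p.Prime], p ≠ 2 → p ≠ 5 → (T.W p).WeakSerre (T.π p)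

variable {T}

theorem weakSerre_of_special (K : T.IsKnown) {N₀ : ℕ} {L₀ : Fld} (hL : SolvableOverQ L₀)
    {S₀ : Finset ℕ} (h : ∀ (ℓ : ℕ) [Fact ℓ.Prime], N₀ < ℓ →
      (T.W ℓ).PrimeFieldCase (T.π ℓ) (T.ε ℓ) L₀ S₀) : T.WeakSerre := by
  intro p _ hp2 hp5 F ρb hc hi ho
  have K1 := K.each p hp2 hp5
  by_cases hs : Group.IsSolvable ρb.range
  · exact K1.solvable F ρb hc ho hi hs
  have hadm : Adm ρb := ⟨hc, ho, hs⟩
  obtain ⟨R, i, hR⟩ := K.systems p hp2 hp5 F ρb hadm
  obtain ⟨ℓ, hF, j, ρ, hN, hc', ho', hb, hl⟩ := K.images p F R i ρb hadm hR (max N₀ 5)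
  have hℓ : 5 < ℓ := lt_of_le_of_lt (le_max_right _ _) hN
  have hNℓ : N₀ < ℓ := lt_of_le_of_lt (le_max_left _ _) hN
  have K2 := K.each ℓ (by omega) (by omega)
  have ha : (T.W ℓ).IsAutomorphic (T.member R ℓ j) :=
    Forms.automorphic_of_primeField K2 hℓ hL (h ℓ hNℓ) hl.1 hl.2 hc' ho' hb
  obtain ⟨f', hf'⟩ := K.independence F R p ℓ i j ha
  exact ⟨f', reduces_same hR.2 hf'⟩

/-- The weak Serre conjecture for all `p ≠ 2, 5` is equivalent to the special case for all large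
primes. -/
theorem main (K : T.IsKnown) {N₀ : ℕ} (hN : 5 ≤ N₀) {L₀ : Fld} (hL : SolvableOverQ L₀)
    (S₀ : Finset ℕ) : T.WeakSerre ↔ ∀ (ℓ : ℕ) [Fact ℓ.Prime], N₀ < ℓ →
      (T.W ℓ).PrimeFieldCase (T.π ℓ) (T.ε ℓ) L₀ S₀ :=
  ⟨fun h ℓ _ hℓ => Forms.primeField_of_weakSerre (K.each ℓ (by omega) (by omega)) (by omega) L₀ S₀
    (h ℓ (by omega) (by omega)), weakSerre_of_special K hL⟩

end Family

end Pool.Agent.X264.WS
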