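import Pool.Agent.X264.WS.Family

/-!
# The weak Serre conjecture and compatible systems with everywhere good reduction
-/

set_option autoImplicit false

noncomputable section

namespace Pool.Agent.X264.WS

namespace Family

variable (T : Family)

/-- Every member of `R` comes from a form of level `(1)`, parallel weight 2 and trivial character. -/
def IsLevelOne {F : Fld} (R : T.Sys F) : Prop :=
  ∀ (p : ℕ) [Fact p.Prime] (i : T.Emb R p), ∃ f : (T.W p).Form F,
    (T.W p).IsMinimal f ∧ Same (T.member R p i) ((T.W p).gal f)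

/-- In the following `good R` means: the members of `R` are unramified away from their residue
characteristic and crystalline at it, and their determinant is the inverse cyclotomic character. -/
def HasGoodLifts (good : ∀ {F : Fld}, T.Sys F → Prop) : Prop :=
  ∀ (p : ℕ) [Fact p.Prime], p ≠ 2 → p ≠ 5 → ∀ (F : Fld) (ρb : Rp (kp p) F), Adm ρb →
    Unramified ρb → TrivialAbove ρb p → HasDet (T.ε p) ρb →
      ∃ (R : T.Sys F) (i : T.Emb R p), good R ∧ T.Lifts R p i ρb

/-- Local-global compatibility. -/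
def HasLevelOne (good : ∀ {F : Fld}, T.Sys F → Prop) : Prop :=
  ∀ (F : Fld) (R : T.Sys F) (p : ℕ) [Fact p.Prime] (i : T.Emb R p), good R →
    (T.W p).IsAutomorphic (T.member R p i) → T.IsLevelOne R

/-- A system is of CM type (then some member is automorphic) or has large image at infinitely many
primes which split completely in the coefficient field. -/
def HasDichotomy (good : ∀ {F : Fld}, T.Sys F → Prop) : Prop :=
  ∀ (F : Fld) (R : T.Sys F), good R →
    (∃ (p : ℕ) (_ : Fact p.Prime) (i : T.Emb R p), (T.W p).IsAutomorphic (T.member R p i)) ∨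
      ∀ N : ℕ, ∃ (ℓ : ℕ) (_ : Fact ℓ.Prime) (j : T.Emb R ℓ) (ρ : Rp (ZMod ℓ) F),
        N < ℓ ∧ Cont ρ ∧ TotallyOdd ρ ∧ Big ρ ∧ T.Lifts R ℓ j (bc (kp ℓ) ρ)

/-- The properties of systems with everywhere good reduction which are used. -/
structure IsKnownGood (good : ∀ {F : Fld}, T.Sys F → Prop) : Prop where
  each : ∀ (p : ℕ) [Fact p.Prime], p ≠ 2 → p ≠ 5 → (T.W p).IsKnown (T.π p) (T.ε p)
  lifts : T.HasGoodLifts @good
  levelOne : T.HasLevelOne @good
  dichotomy : T.HasDichotomy @good

/-- Systems with everywhere good reduction over fields `F ⊇ L₀` come from forms of level `(1)`. -/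
def GoodCase (good : ∀ {F : Fld}, T.Sys F → Prop) (L₀ : Fld) : Prop :=
  ∀ (F : Fld) (R : T.Sys F), F.G ≤ L₀.G → good R → T.IsLevelOne R

variable {T} {good : ∀ {F : Fld}, T.Sys F → Prop}

theorem good_of_weakSerre (K : T.IsKnownGood @good) (L₀ : Fld) (h : T.WeakSerre) :
    T.GoodCase @good L₀ := by
  intro F R _ hg
  rcases K.dichotomy F R hg with ⟨p, hp, i, ha⟩ | hN
  · exact K.levelOne F R p i hg ha
  · obtain ⟨ℓ, hF, j, ρ, hN, hc, ho, hb, hl⟩ := hN 5
    have K2 := K.each ℓ (by omega) (by omega)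
    have hadm : Adm (bc (kp ℓ) ρ) := adm_bc hN hc ho hb
    have hm : (T.W ℓ).IsModular (T.π ℓ) (bc (kp ℓ) ρ) :=
      h ℓ (by omega) (by omega) F (bc (kp ℓ) ρ) hadm.1 (irr_of_not_solvable hadm.2.2) hadm.2.1
    exact K.levelOne F R ℓ j hg (K2.lifting F _ (bc (kp ℓ) ρ) hl.1 hl.2 hadm hm)

theorem weakSerre_of_good (K : T.IsKnownGood @good) {L₀ : Fld} (hL : SolvableOverQ L₀)
    (h : T.GoodCase @good L₀) : T.WeakSerre := by
  intro p _ hp2 hp5
  refine Forms.weakSerre_of_special (K.each p hp2 hp5) hL (S₀ := {p}) ?_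
  intro F hF ρb ha hu ht hd
  obtain ⟨R, i, hg, hR⟩ := K.lifts p hp2 hp5 F ρb ha hu
    (ht p (Finset.mem_singleton_self p) Fact.out) hd
  obtain ⟨f, hf, hs⟩ := h F R hF hg p i
  exact ⟨f, hf, reduces_same hR.2 hs⟩

theorem mainGood (K : T.IsKnownGood @good) {L₀ : Fld} (hL : SolvableOverQ L₀) :
    T.WeakSerre ↔ T.GoodCase @good L₀ :=
  ⟨good_of_weakSerre K L₀, weakSerre_of_good K hL⟩

end Family

end Pool.Agent.X264.WS
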