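import Pool.Agent.X264.WS.Defs

/-!
# Group theory: derived series and solvable images
-/

set_option autoImplicit false

open Matrix
open scoped commutatorElement

namespace Pool.Agent.X264.WS

variable {k : Type} [Field k] {F : Fld}

theorem ds_mono {H K : Subgroup Γ} (h : H ≤ K) : ∀ n, ds H n ≤ ds K n
  | 0 => h
  | n + 1 => Subgroup.commutator_mono (ds_mono h n) (ds_mono h n)

theorem ds_succ_le (H : Subgroup Γ) (n : ℕ) : ds H (n + 1) ≤ ds H n :=
  Subgroup.commutator_le.2 fun a ha b hb => by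
    rw [commutatorElement_def]
    exact (ds H n).mul_mem ((ds H n).mul_mem ((ds H n).mul_mem ha hb) ((ds H n).inv_mem ha))
      ((ds H n).inv_mem hb)

theorem ds_anti (H : Subgroup Γ) {m n : ℕ} (h : m ≤ n) : ds H n ≤ ds H m := by
  induction n, h using Nat.le_induction with
  | base => exact le_refl _
  | succ n _ ih => exact (ds_succ_le H n).trans ih

theorem ds_add (H : Subgroup Γ) (n : ℕ) : ∀ m, ds H (n + m) = ds (ds H n) m
  | 0 => rfl
  | m + 1 => by
    show ⁅ds H (n + m), ds H (n + m)⁆ = ⁅ds (ds H n) m, ds (ds H n) m⁆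
    rw [ds_add H n m]

theorem map_derivedSeries (H : Subgroup Γ) :
    ∀ n, (derivedSeries H n).map H.subtype = ds H n
  | 0 => by
    show Subgroup.map H.subtype ⊤ = H
    rw [← MonoidHom.range_eq_map, Subgroup.range_subtype]
  | n + 1 => by
    show Subgroup.map H.subtype ⁅derivedSeries H n, derivedSeries H n⁆ = ⁅ds H n, ds H n⁆
    rw [Subgroup.map_commutator, map_derivedSeries H n]

/-- Solvable image, in terms of the derived series of `Gal(ℚ̄/F)`. -/
theorem solvable_iff (ρ : Rp k F) :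
    Group.IsSolvable ρ.range ↔ ∃ n, ∀ g (hg : g ∈ F.G), g ∈ ds F.G n → ρ ⟨g, hg⟩ = 1 := by
  have key : ∀ n, derivedSeries ρ.range n = ⊥ ↔
      ∀ g (hg : g ∈ F.G), g ∈ ds F.G n → ρ ⟨g, hg⟩ = 1 := by
    intro n
    rw [← map_derivedSeries_eq ρ.rangeRestrict_surjective n, eq_bot_iff, Subgroup.map_le_iff_le_comap]
    constructor
    · intro h g hg hn
      rw [← map_derivedSeries, Subgroup.mem_map] at hn
      obtain ⟨x, hx, rfl⟩ := hn
      have h1 := h hx
      rw [Subgroup.mem_comap, Subgroup.mem_bot] at h1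
      exact congrArg Subtype.val h1
    · intro h x hx
      rw [Subgroup.mem_comap, Subgroup.mem_bot]
      have h1 : (x : Γ) ∈ ds F.G n := by
        rw [← map_derivedSeries]
        exact Subgroup.mem_map_of_mem _ hx
      exact Subtype.ext (h x.1 x.2 h1)
  constructor
  · intro h
    obtain ⟨n, hn⟩ := h.solvable
    exact ⟨n, (key n).1 hn⟩
  · rintro ⟨n, hn⟩
    exact ⟨⟨n, (key n).2 hn⟩⟩

/-- The restriction to an extension contained in a solvable one has nonsolvable image. -/
theorem not_solvable_res {F F' : Fld} (h : F'.G ≤ F.G) {n : ℕ} (hn : ds F.G n ≤ F'.G) {ρ : Rp k F}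
    (hs : ¬ Group.IsSolvable ρ.range) : ¬ Group.IsSolvable (res h ρ).range := by
  intro h1
  rw [solvable_iff] at h1
  obtain ⟨m, hm⟩ := h1
  apply hs
  rw [solvable_iff]
  refine ⟨n + m, fun g hg h2 => ?_⟩
  rw [ds_add] at h2
  have h3 : g ∈ ds F'.G m := ds_mono hn m h2
  have h4 : g ∈ F'.G := ds_anti F'.G (Nat.zero_le m) h3
  exact hm g h4 h3

theorem res_val {R : Type*} [Group R] {F F' : Fld} (h : F'.G ≤ F.G) (ρ : F.G →* R) (g : F'.G) :
    res h ρ g = ρ ⟨g.1, h g.2⟩ := rfl

/-- Explicit form of the elements of determinant one fixing a vector. -/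
theorem shape {a b c d x y : k} (hv : x ≠ 0 ∨ y ≠ 0)
    (h1 : a * x + b * y = x) (h2 : c * x + d * y = y) (h3 : a * d - b * c = 1) :
    (x ≠ 0 ∧ a = 1 - b * (y / x) ∧ d = 1 + b * (y / x) ∧ c = -b * (y / x) ^ 2) ∨
      (x = 0 ∧ b = 0 ∧ a = 1 ∧ d = 1) := by
  by_cases hx : x = 0
  · right
    subst hx
    have hy : y ≠ 0 := hv.resolve_left (fun h => h rfl)
    have hb : b = 0 := by
      have : b * y = 0 := by linear_combination h1
      exact (mul_eq_zero.1 this).resolve_right hy
    have hd : d = 1 := by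
      have : (d - 1) * y = 0 := by linear_combination h2
      exact sub_eq_zero.1 ((mul_eq_zero.1 this).resolve_right hy)
    subst hb hd
    exact ⟨rfl, rfl, by linear_combination h3, rfl⟩
  · left
    have ha : a = 1 - b * (y / x) := by
      field_simp
      linear_combination h1
    have hd : d = 1 + b * (y / x) := by
      have : (d - 1) * x = b * y := by linear_combination (-d) * h1 + b * h2 + x * h3
      field_simp
      linear_combination this
    refine ⟨hx, ha, hd, ?_⟩
    have h4 : c * x = - b * (y / x) * y := by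
      rw [hd] at h2
      linear_combination h2
    field_simp
    field_simp at h4
    linear_combination h4

/-- Two elements of determinant one fixing the same vector commute. -/
theorem commute_of_fix {A B : GL (Fin 2) k} {v : Fin 2 → k} (hv : v ≠ 0)
    (hA : A.1 *ᵥ v = v) (hA' : A.1.det = 1) (hB : B.1 *ᵥ v = v) (hB' : B.1.det = 1) :
    A * B = B * A := by
  have hv' : v 0 ≠ 0 ∨ v 1 ≠ 0 := by
    by_contra hcon
    push Not at hcon
    apply hv
    funext i
    fin_cases i
    · exact hcon.1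
    · exact hcon.2
  have ea := congrFun hA 0
  have ea' := congrFun hA 1
  have eb := congrFun hB 0
  have eb' := congrFun hB 1
  simp only [Matrix.mulVec, dotProduct, Fin.sum_univ_two] at ea ea' eb eb'
  rw [Matrix.det_fin_two] at hA' hB'
  have sA := shape hv' ea ea' hA'
  have sB := shape hv' eb eb' hB'
  apply Units.ext
  show A.1 * B.1 = B.1 * A.1
  have e : (A.1 0 0 * B.1 0 0 + A.1 0 1 * B.1 1 0 = B.1 0 0 * A.1 0 0 + B.1 0 1 * A.1 1 0) ∧
      (A.1 0 0 * B.1 0 1 + A.1 0 1 * B.1 1 1 = B.1 0 0 * A.1 0 1 + B.1 0 1 * A.1 1 1) ∧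
      (A.1 1 0 * B.1 0 0 + A.1 1 1 * B.1 1 0 = B.1 1 0 * A.1 0 0 + B.1 1 1 * A.1 1 0) ∧
      (A.1 1 0 * B.1 0 1 + A.1 1 1 * B.1 1 1 = B.1 1 0 * A.1 0 1 + B.1 1 1 * A.1 1 1) := by
    generalize A.1 0 0 = a at *
    generalize A.1 0 1 = b at *
    generalize A.1 1 0 = c at *
    generalize A.1 1 1 = d at *
    generalize B.1 0 0 = a' at *
    generalize B.1 0 1 = b' at *
    generalize B.1 1 0 = c' at *
    generalize B.1 1 1 = d' at *
    rcases sA with ⟨hx, a1, a2, a3⟩ | ⟨hx, a1, a2, a3⟩
    · rcases sB with ⟨_, b1, b2, b3⟩ | ⟨hx', _⟩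
      · subst a1 a2 a3 b1 b2 b3
        refine ⟨?_, ?_, ?_, ?_⟩ <;> ring
      · exact absurd hx' hx
    · rcases sB with ⟨hx', _⟩ | ⟨_, b1, b2, b3⟩
      · exact absurd hx hx'
      · subst a1 a2 a3 b1 b2 b3
        refine ⟨?_, ?_, ?_, ?_⟩ <;> ring
  rw [Matrix.eta_fin_two A.1, Matrix.eta_fin_two B.1, Matrix.mul_fin_two, Matrix.mul_fin_two, e.1,
    e.2.1, e.2.2.1, e.2.2.2]

/-- Nonsolvable image implies irreducible. -/
theorem irr_of_not_solvable {ρ : Rp k F} (hs : ¬ Group.IsSolvable ρ.range) : Irr ρ := by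
  by_contra hcon
  unfold Irr at hcon
  push Not at hcon
  obtain ⟨v, hv, h⟩ := hcon
  apply hs
  let P : Subgroup F.G :=
    { carrier := {g | (ρ g).1 *ᵥ v = v ∧ (ρ g).1.det = 1}
      mul_mem' := by
        rintro a b ⟨ha, ha'⟩ ⟨hb, hb'⟩
        refine ⟨?_, ?_⟩
        · rw [map_mul, Units.val_mul, ← Matrix.mulVec_mulVec, hb, ha]
        · rw [map_mul, Units.val_mul, Matrix.det_mul, ha', hb', mul_one]
      one_mem' := by
        refine ⟨?_, ?_⟩
        · rw [map_one, Units.val_one, Matrix.one_mulVec]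
        · rw [map_one, Units.val_one, Matrix.det_one]
      inv_mem' := by
        rintro a ⟨ha, ha'⟩
        have e : (ρ a⁻¹).1 * (ρ a).1 = 1 := by
          rw [← Units.val_mul, ← map_mul, inv_mul_cancel, map_one, Units.val_one]
        refine ⟨?_, ?_⟩
        · conv_lhs => rw [← ha]
          rw [Matrix.mulVec_mulVec, e, Matrix.one_mulVec]
        · have e2 := congrArg Matrix.det e
          rw [Matrix.det_mul, ha', mul_one, Matrix.det_one] at e2
          exact e2 }
  have h1 : derivedSeries F.G 1 ≤ P := by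
    show ⁅(⊤ : Subgroup F.G), ⊤⁆ ≤ P
    rw [Subgroup.commutator_le]
    intro a _ b _
    obtain ⟨s, hs1⟩ := h a
    obtain ⟨t, ht1⟩ := h b
    obtain ⟨s', hs'⟩ := h a⁻¹
    obtain ⟨t', ht'⟩ := h b⁻¹
    have es : s * s' = 1 := by
      have e : (ρ a).1 *ᵥ ((ρ a⁻¹).1 *ᵥ v) = v := by
        rw [Matrix.mulVec_mulVec, ← Units.val_mul, ← map_mul, mul_inv_cancel, map_one,
          Units.val_one, Matrix.one_mulVec]
      rw [hs', Matrix.mulVec_smul, hs1, smul_smul] at e
      by_contra hne
      apply hv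
      have e2 : (s' * s - 1) • v = 0 := by rw [sub_smul, e, one_smul, sub_self]
      rcases smul_eq_zero.1 e2 with h0 | h0
      · exact absurd (by linear_combination h0) hne
      · exact h0
    have et : t * t' = 1 := by
      have e : (ρ b).1 *ᵥ ((ρ b⁻¹).1 *ᵥ v) = v := by
        rw [Matrix.mulVec_mulVec, ← Units.val_mul, ← map_mul, mul_inv_cancel, map_one,
          Units.val_one, Matrix.one_mulVec]
      rw [ht', Matrix.mulVec_smul, ht1, smul_smul] at e
      by_contra hne
      apply hv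
      have e2 : (t' * t - 1) • v = 0 := by rw [sub_smul, e, one_smul, sub_self]
      rcases smul_eq_zero.1 e2 with h0 | h0
      · exact absurd (by linear_combination h0) hne
      · exact h0
    refine ⟨?_, ?_⟩
    · rw [commutatorElement_def, map_mul, map_mul, map_mul, Units.val_mul, Units.val_mul,
        Units.val_mul, ← Matrix.mulVec_mulVec, ht', Matrix.mulVec_smul, ← Matrix.mulVec_mulVec, hs',
        Matrix.mulVec_smul, ← Matrix.mulVec_mulVec, ht1, Matrix.mulVec_smul, hs1, smul_smul,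
        smul_smul, smul_smul]
      have : t' * s' * t * s = 1 := by linear_combination (s * s') * et + es
      rw [this, one_smul]
    · have : ρ ⁅a, b⁆ = ⁅ρ a, ρ b⁆ := by
        rw [map_commutatorElement]
      rw [this, ← Matrix.GeneralLinearGroup.val_det_apply, map_commutatorElement,
        commutatorElement_eq_one_iff_mul_comm.2 (mul_comm _ _), Units.val_one]
  have h2 : derivedSeries F.G 2 ≤ ρ.ker := by
    show ⁅derivedSeries F.G 1, derivedSeries F.G 1⁆ ≤ ρ.ker
    rw [Subgroup.commutator_le]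
    intro a ha b hb
    obtain ⟨ha1, ha2⟩ := h1 ha
    obtain ⟨hb1, hb2⟩ := h1 hb
    rw [MonoidHom.mem_ker, map_commutatorElement, commutatorElement_eq_one_iff_mul_comm]
    exact commute_of_fix hv ha1 ha2 hb1 hb2
  rw [solvable_iff]
  refine ⟨2, fun g hg hn => ?_⟩
  rw [← map_derivedSeries, Subgroup.mem_map] at hn
  obtain ⟨x, hx, rfl⟩ := hn
  exact h2 hx

end Pool.Agent.X264.WS
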