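import Pool.Agent.X264.WS.Grp

/-!
# The weak Serre conjecture for totally real fields: reduction to everywhere unramified
# representations
-/

set_option autoImplicit false

open Matrix
open scoped commutatorElement

noncomputable section

namespace Pool.Agent.X264.WS

variable {p : ℕ} [Fact p.Prime] {k K : Type} [Field k] [Field K] {O : Subring K} {F : Fld}

section cyclotomic

variable {ε : Γ →* (ZMod p)ˣ}
  (hε : IsCyclotomic ε)

theorem exists_primitive (p : ℕ) [Fact p.Prime] : ∃ ζ : Qb, IsPrimitiveRoot ζ p := by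
  have : NeZero (p : Qb) := ⟨by
    have := (Fact.out : p.Prime).ne_zero
    exact_mod_cast this⟩
  exact HasEnoughRootsOfUnity.exists_primitiveRoot Qb p

include hε in
/-- Complex conjugations act by inversion on the roots of unity. -/
theorem cyc_conj {c : Γ} (hc : IsConj c) : ε c = -1 := by
  obtain ⟨ζ, hζ⟩ := exists_primitive p
  obtain ⟨φ, hφ⟩ := hc
  have h1 : act c ζ = ζ ^ ((ε c : ZMod p)).val := hε c ζ hζ.pow_eq_one
  have h0 : ζ ≠ 0 := hζ.ne_zero (Fact.out : p.Prime).ne_zero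
  have h2 : act c ζ * ζ = 1 := by
    apply φ.injective
    rw [map_mul, hφ, map_one]
    have h3 : (φ ζ) ^ p = 1 := by rw [← map_pow, hζ.pow_eq_one, map_one]
    have h4 : ‖φ ζ‖ = 1 := Complex.norm_eq_one_of_pow_eq_one h3 (Fact.out : p.Prime).ne_zero
    rw [mul_comm, Complex.mul_conj, Complex.normSq_eq_norm_sq, h4]
    norm_num
  rw [h1, ← pow_succ] at h2
  have h5 : p ∣ ((ε c : ZMod p)).val + 1 := hζ.dvd_of_pow_eq_one _ h2
  have h6 : ((((ε c : ZMod p)).val + 1 : ℕ) : ZMod p) = 0 := (ZMod.natCast_eq_zero_iff _ _).2 h5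
  rw [Nat.cast_add, ZMod.natCast_val, ZMod.cast_id, Nat.cast_one] at h6
  apply Units.ext
  rw [Units.val_neg, Units.val_one]
  linear_combination h6

include hε in
/-- The cyclotomic character is continuous. -/
theorem cyc_open : IsOpen ((ε.ker : Subgroup Γ) : Set Γ) := by
  obtain ⟨ζ, hζ⟩ := exists_primitive p
  let E : IntermediateField ℚ Qb := IntermediateField.adjoin ℚ {ζ}
  have : FiniteDimensional ℚ E :=
    IntermediateField.adjoin.finiteDimensional
      (IsAlgebraic.isIntegral ((AlgebraicClosure.isAlgebraic ℚ).isAlgebraic ζ))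
  let H : Subgroup Γ := (E.fixingSubgroup : Subgroup (Qb ≃ₐ[ℚ] Qb))
  have hH : IsOpen (H : Set Γ) := E.fixingSubgroup_isOpen
  refine Subgroup.isOpen_mono (H₁ := H) ?_ hH
  intro g hg
  change act g ∈ E.fixingSubgroup at hg
  rw [MonoidHom.mem_ker]
  have h1 : act g ζ = ζ := by
    rw [IntermediateField.mem_fixingSubgroup_iff] at hg
    exact hg ζ (IntermediateField.mem_adjoin_simple_self ℚ ζ)
  have h2 : act g ζ = ζ ^ ((ε g : ZMod p)).val := hε g ζ hζ.pow_eq_one
  rw [h1] at h2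
  have h3 : ζ ^ 1 = ζ ^ ((ε g : ZMod p)).val := by rw [pow_one]; exact h2
  have hp : 1 < p := (Fact.out : p.Prime).one_lt
  have h4 := hζ.pow_inj hp (ZMod.val_lt _) h3
  apply Units.ext
  rw [Units.val_one]
  apply ZMod.val_injective
  rw [← h4, ZMod.val_one]

end cyclotomic

theorem reduces_res {π : O →+* k} {F F' : Fld} (h : F'.G ≤ F.G) {ρ : Rp K F}
    {ρb : Rp k F} (hr : Reduces π ρ ρb) : Reduces π (res h ρ) (res h ρb) := fun g =>
  hr (Subgroup.inclusion h g)

theorem reduces_same {π : O →+* k} {ρ ρ' : Rp K F} {ρb : Rp k F}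
    (hr : Reduces π ρ ρb) (hs : Same ρ ρ') : Reduces π ρ' ρb := fun g => by
  obtain ⟨t, d, h1, h2, h3, h4⟩ := hr g
  exact ⟨t, d, h1.trans (hs g).1, h2.trans (hs g).2, h3, h4⟩

/-- the character `det ρ̄ · ε` -/
def psi [Algebra (ZMod p) k] (ε : Γ →* (ZMod p)ˣ) (ρ : Rp k F) : F.G →* kˣ :=
  (GeneralLinearGroup.det.comp ρ) *
    (((Units.map (algebraMap (ZMod p) k : ZMod p →* k)).comp ε).comp F.G.subtype)

theorem psi_val [Algebra (ZMod p) k] (ε : Γ →* (ZMod p)ˣ) (ρ : Rp k F) (g : F.G) :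
    (psi ε ρ g : k) = dt ρ g * algebraMap (ZMod p) k (ε g) := by
  show ((GeneralLinearGroup.det (ρ g) * Units.map _ (ε g) : kˣ) : k) = _
  rw [Units.val_mul]
  rfl

theorem psi_one [Algebra (ZMod p) k] {ε : Γ →* (ZMod p)ˣ} {ρ : Rp k F} {g : F.G}
    (h : dt ρ g * algebraMap (ZMod p) k (ε g) = 1) : psi ε ρ g = 1 :=
  Units.ext ((psi_val ε ρ g).trans h)

namespace Forms

variable [Algebra (ZMod p) k] {W : Forms K} {π : O →+* k} {ε : Γ →* (ZMod p)ˣ}

/-- the weak Serre conjecture (for `p`) -/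
def WeakSerre (W : Forms K) (π : O →+* k) : Prop :=
  ∀ (F : Fld) (ρb : Rp k F), Cont ρb → Irr ρb → TotallyOdd ρb → W.IsModular π ρb

/-- The special case: `F ⊇ L₀`, nonsolvable image, everywhere unramified, trivial on the decomposition
groups above the primes of `S₀`, determinant `ε⁻¹`; the representation comes from a form of level `(1)`
and parallel weight 2. -/
def SpecialCase (W : Forms K) (π : O →+* k) (ε : Γ →* (ZMod p)ˣ) (L₀ : Fld)
    (S₀ : Finset ℕ) : Prop :=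
  ∀ (F : Fld), F.G ≤ L₀.G → ∀ ρb : Rp k F, Adm ρb → Unramified ρb →
    (∀ ℓ ∈ S₀, ℓ.Prime → TrivialAbove ρb ℓ) → HasDet ε ρb → W.IsMinimallyModular π ρb

theorem special_of_weakSerre (K : W.IsKnown π ε) {L₀ : Fld} {S₀ : Finset ℕ} (hp : p ∈ S₀)
    (h : W.WeakSerre π) : W.SpecialCase π ε L₀ S₀ := fun F _ ρb ha hu ht hd =>
  K.minimal F ρb ha (h F ρb ha.1 (irr_of_not_solvable ha.2.2) ha.2.1) hu (ht p hp Fact.out) hd

theorem weakSerre_of_special (K : W.IsKnown π ε) {L₀ : Fld} (hL : SolvableOverQ L₀)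
    {S₀ : Finset ℕ} (h : W.SpecialCase π ε L₀ S₀) : W.WeakSerre π := by
  classical
  intro F ρb hc hi ho
  by_cases hs : Group.IsSolvable ρb.range
  · exact K.solvable F ρb hc ho hi hs
  obtain ⟨S, hS⟩ := K.ramification F ρb hc
  obtain ⟨F1, hst, h1⟩ := K.classField F ρb hc (S ∪ S₀)
  obtain ⟨hle, hnorm, n1, hn1⟩ := hst
  obtain ⟨hLn, n2, hn2⟩ := hL
  -- the field `F' = F₁ L₀ F_ψ`
  let Kψ : Subgroup Γ := (psi ε ρb).ker.map F.G.subtype
  have hKopen : IsOpen ((Kψ : Subgroup Γ) : Set Γ) := by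
    refine Subgroup.isOpen_mono (H₁ := (ρb.ker.map F.G.subtype) ⊓ ε.ker) ?_ ?_
    · rintro g ⟨⟨x, hx, rfl⟩, hg2⟩
      refine ⟨x, ?_, rfl⟩
      have hx' : ρb x = 1 := hx
      have hg3 : ε (x : Γ) = 1 := hg2
      show psi ε ρb x = 1
      apply psi_one
      rw [hg3, Units.val_one, map_one, mul_one]
      show (ρb x).1.det = 1
      rw [hx', Units.val_one, Matrix.det_one]
    · exact IsOpen.inter hc (cyc_open K.cyc)
  let F' : Fld :=
    { G := F1.G ⊓ L₀.G ⊓ Kψ
      isOpen := (F1.isOpen.inter L₀.isOpen).inter hKopen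
      real := fun c hcc => by
        refine ⟨⟨F1.real c hcc, L₀.real c hcc⟩, ⟨⟨c, F.real c hcc⟩, ?_, rfl⟩⟩
        show psi ε ρb ⟨c, F.real c hcc⟩ = 1
        apply psi_one
        rw [ho c hcc]
        show (-1 : k) * algebraMap (ZMod p) k (ε c) = 1
        rw [cyc_conj K.cyc hcc, Units.val_neg, Units.val_one, map_neg, map_one]
        ring }
  have hF1 : F'.G ≤ F1.G := fun g hg => hg.1.1
  have hF'L : F'.G ≤ L₀.G := fun g hg => hg.1.2
  have hF' : F'.G ≤ F.G := hF1.trans hle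
  have hF'n : (F'.G.subgroupOf F.G).Normal := by
    refine ⟨fun n hn g => ?_⟩
    have hn' : (n : Γ) ∈ F'.G := hn
    refine ⟨⟨?_, ?_⟩, ?_⟩
    · exact hnorm.conj_mem n hn'.1.1 g
    · exact hLn.conj_mem n hn'.1.2 g
    · obtain ⟨x, hx, hxn⟩ := hn'.2
      refine ⟨g * x * g⁻¹, (inferInstance : (psi ε ρb).ker.Normal).conj_mem x hx g, ?_⟩
      show (g : Γ) * (x : Γ) * (g : Γ)⁻¹ = _
      have : (x : Γ) = n := hxn
      rw [this]
      rfl
  have hds : ds F.G (max (max n1 n2) 1) ≤ F'.G := by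
    refine le_inf (le_inf ?_ ?_) ?_
    · exact (ds_anti F.G ((le_max_left n1 n2).trans (le_max_left _ 1))).trans hn1
    · exact ((ds_anti F.G ((le_max_right n1 n2).trans (le_max_left _ 1))).trans
        (ds_mono le_top n2)).trans hn2
    · refine (ds_anti F.G (le_max_right _ 1)).trans ?_
      show ⁅F.G, F.G⁆ ≤ Kψ
      rw [Subgroup.commutator_le]
      intro a ha b hb
      refine ⟨⁅(⟨a, ha⟩ : F.G), (⟨b, hb⟩ : F.G)⁆, ?_, rfl⟩
      show psi ε ρb _ = 1
      rw [map_commutatorElement, commutatorElement_eq_one_iff_mul_comm]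
      exact mul_comm _ _
  have hstep : Step F F' := ⟨hF', hF'n, _, hds⟩
  have hadm : Adm ρb := ⟨hc, ho, hs⟩
  have hadm' : Adm (res hF' ρb) := by
    refine ⟨?_, ?_, not_solvable_res hF' hds hs⟩
    · have : (((res hF' ρb).ker.map F'.G.subtype : Subgroup Γ) : Set Γ) =
          ((ρb.ker.map F.G.subtype : Subgroup Γ) : Set Γ) ∩ (F'.G : Set Γ) := by
        ext g
        constructor
        · rintro ⟨x, hx, rfl⟩
          exact ⟨⟨⟨x.1, hF' x.2⟩, hx, rfl⟩, x.2⟩
        · rintro ⟨⟨x, hx, rfl⟩, hg⟩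
          exact ⟨⟨x.1, hg⟩, hx, rfl⟩
      unfold Cont
      rw [this]
      exact IsOpen.inter hc F'.isOpen
    · intro c hcc
      exact ho c hcc
  have hmin : W.IsMinimallyModular π (res hF' ρb) := by
    refine h F' hF'L (res hF' ρb) hadm' ?_ ?_ ?_
    · intro ℓ hℓ A hA g hg hgI
      by_cases hm : ℓ ∈ S ∪ S₀
      · exact (h1 ℓ hm hℓ A hA g (hF1 hg) hgI.1).1
      · exact hS ℓ hℓ (fun h2 => hm (Finset.mem_union_left _ h2)) A hA g (hF' hg) hgI
    · intro ℓ hm hℓ A hA g hg hgD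
      exact (h1 ℓ (Finset.mem_union_right _ hm) hℓ A hA g (hF1 hg) hgD).1
    · intro g
      obtain ⟨x, hx, hxg⟩ := g.2.2
      have e : x = ⟨g.1, hF' g.2⟩ := Subtype.ext hxg
      have hx' : psi ε ρb x = 1 := hx
      rw [e] at hx'
      have h3 := (psi_val ε ρb ⟨g.1, hF' g.2⟩).symm
      rw [hx', Units.val_one] at h3
      exact h3
  obtain ⟨f, -, hf⟩ := hmin
  obtain ⟨ρ, hg, hr⟩ := K.lifts F ρb hadm
  have ha' : W.IsAutomorphic (res hF' ρ) :=
    K.lifting F' (res hF' ρ) (res hF' ρb) (K.restrict F F' hF' ρ hg) (reduces_res hF' hr) hadm'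
      ⟨f, hf⟩
  obtain ⟨f', hf'⟩ := K.descent F F' hstep ρ ρb hg hr hadm' ha'
  exact ⟨f', reduces_same hr hf'⟩

/-- The weak Serre conjecture for `p` is equivalent to the special case. -/
theorem main (K : W.IsKnown π ε) {L₀ : Fld} (hL : SolvableOverQ L₀) {S₀ : Finset ℕ}
    (hp : p ∈ S₀) : W.WeakSerre π ↔ W.SpecialCase π ε L₀ S₀ :=
  ⟨special_of_weakSerre K hp, weakSerre_of_special K hL⟩

end Forms

end Pool.Agent.X264.WS
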